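import Pool.Agent.Helper21.W4.St1

/-!
# Project W4, module Nd: the numbers nd1 and nd2
-/

set_option autoImplicit false

namespace Pool.Agent.Helper4.W4

open Pool.Agent.Helper21.W4 Finset

theorem nd_aux (B : ℕ) (s v : ℕ → ℕ) (a u : ℕ) (ha : ∀ p, p < a ↔ 1 < s p)
    (hu : ∀ p, p < u ↔ 1 < v p) (anti : ∀ p, s (p + 1) ≤ s p) (hB : ∀ p, 1 < s p → p + 1 < B) :
    a - 1 ≤ (∑ p ∈ range B, if v (p + 1) ≤ 1 ∧ s (p + 2) = s (p + 1) ∧ 2 ≤ s (p + 1) then
      s (p + 1) else 0) + (u - 1) + dd B s (u - 1) := by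
  set F := (range B).filter
    (fun p => v (p + 1) ≤ 1 ∧ s (p + 2) = s (p + 1) ∧ 2 ≤ s (p + 1)) with hF
  have hsum : F.card ≤ ∑ p ∈ range B, if v (p + 1) ≤ 1 ∧ s (p + 2) = s (p + 1) ∧ 2 ≤ s (p + 1) then
      s (p + 1) else 0 := by
    rw [← Finset.sum_filter, ← hF, Finset.card_eq_sum_ones]
    apply Finset.sum_le_sum
    intro p hp
    have := (Finset.mem_filter.1 hp).2.2.2
    omega
  have hsub : Ico 1 a ⊆ (Ico 1 u ∪ F.image (fun p => p + 1)) ∪
      (cor B s).filter (fun p => u - 1 < p) := by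
    intro p hp
    obtain ⟨h1, h2⟩ := Finset.mem_Ico.1 hp
    have hs : 1 < s p := (ha p).1 h2
    have hpB := hB p hs
    rw [Finset.mem_union, Finset.mem_union]
    by_cases hpu : p < u
    · exact Or.inl (Or.inl (Finset.mem_Ico.2 ⟨h1, hpu⟩))
    · have hv : v p ≤ 1 := by
        by_contra hc
        exact hpu ((hu p).2 (by omega))
      rcases Nat.lt_or_ge (s (p + 1)) (s p) with hlt | hge
      · right
        rw [Finset.mem_filter]
        refine ⟨?_, by omega⟩
        unfold cor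
        rw [Finset.mem_filter, Finset.mem_range]
        exact ⟨by omega, h1, hs, hlt⟩
      · left
        right
        rw [Finset.mem_image]
        obtain ⟨k, rfl⟩ : ∃ k, p = k + 1 := ⟨p - 1, by omega⟩
        refine ⟨k, ?_, rfl⟩
        rw [hF, Finset.mem_filter, Finset.mem_range]
        exact ⟨by omega, hv, le_antisymm (anti (k + 1)) hge, hs⟩
  have hc := Finset.card_le_card hsub
  have h1 := Finset.card_union_le (Ico 1 u ∪ F.image (fun p => p + 1))
    ((cor B s).filter (fun p => u - 1 < p))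
  have h2 := Finset.card_union_le (Ico 1 u) (F.image (fun p => p + 1))
  have h3 : (F.image (fun p => p + 1)).card ≤ F.card := Finset.card_image_le
  have h4 : (Ico 1 u).card = u - 1 := by simp
  have h5 : (Ico 1 a).card = a - 1 := by simp
  have h6 : ((cor B s).filter (fun p => u - 1 < p)).card = dd B s (u - 1) := rfl
  omega

/-- the theorem StNd -/
theorem hNd : StNd := by
  intro B h1 h2 h3 hp
  constructor
  · refine nd_aux B (fun p => h3 p 0) (fun p => h3 p 1) (h1 0 1) (h1 1 1)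
      (fun p => hp.e13 p 0 1) (fun p => hp.e13 p 1 1) ?_ ?_
    · intro p
      by_contra hc
      push Not at hc
      have e1 := (hp.e13 (p + 1) 0 (h3 p 0)).2 hc
      have e2 := (hp.e13 p 0 (h3 p 0)).1 (by omega)
      omega
    · intro p hs
      exact (hp.bd p 0 1 ((hp.e13 p 0 1).2 hs)).1
  · refine nd_aux B (fun q => h3 0 q) (fun q => h3 1 q) (h2 0 1) (h2 1 1)
      (fun q => (hp.e12 0 q 1).symm.trans (hp.e13 0 q 1))
      (fun q => (hp.e12 1 q 1).symm.trans (hp.e13 1 q 1)) ?_ ?_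
    · intro q
      by_contra hc
      push Not at hc
      have e1 := (hp.e13 0 (q + 1) (h3 0 q)).2 hc
      have e2 := (hp.e12 0 (q + 1) (h3 0 q)).1 e1
      have e3 := (hp.e12 0 q (h3 0 q)).2 (by omega)
      have e4 := (hp.e13 0 q (h3 0 q)).1 e3
      omega
    · intro q hs
      exact (hp.bd 0 q 1 ((hp.e13 0 q 1).2 hs)).2.1

end Pool.Agent.Helper4.W4
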