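import Pool.Agent.Helper21.W4.St1

/-!
# Project W4, module SwT: invariance of the conclusion
-/

set_option autoImplicit false

namespace Pool.Agent.Helper4.W4

open Pool.Agent.Helper21.W4 Finset

theorem vol_tr (B : ℕ) (h : ℕ → ℕ → ℕ) : vol B (fun p q => h q p) = vol B h := by
  unfold vol
  exact Finset.sum_comm

theorem NMs_tr (B : ℕ) (h : ℕ → ℕ → ℕ) : NMs B (fun p q => h q p) = NMs B h := by
  unfold NMs
  rw [Finset.sum_comm]
  refine Finset.sum_congr rfl (fun p _ => Finset.sum_congr rfl (fun q _ => ?_))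
  simp only [or_comm]

theorem Two_swap {p q r : ℕ} (h : Two p q r) : Two q p r := by
  unfold Two at *
  omega

theorem Two_swap' {p q r : ℕ} (h : Two p q r) : Two p r q := by
  unfold Two at *
  omega

/-- the theorem StSwT -/
theorem hSwT : StSwT := by
  intro hVol B h1 h2 h3 κ hp
  have hv := hVol B h1 h2 h3 ⟨hp.e12, hp.e13, hp.bd⟩
  refine ⟨?_, ?_, ?_, ?_, ?_, ?_⟩
  · intro ht
    unfold Tgt at *
    rw [vol_tr B h3, NMs_tr B h3] at ht
    have e : (2 * ((vol B h3 : ℤ) - NMs B h1 - NMs B h2 - NMs B h3) + 1) =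
      (2 * ((vol B h3 : ℤ) - NMs B h2 - NMs B h1 - NMs B h3) + 1) := by ring
    rw [e]
    exact ht
  · intro ht
    unfold Tgt at *
    rw [NMs_tr B h1, hv.2] at ht
    have e : (2 * ((vol B h3 : ℤ) - NMs B h1 - NMs B h2 - NMs B h3) + 1) =
      (2 * ((vol B h3 : ℤ) - NMs B h1 - NMs B h3 - NMs B h2) + 1) := by ring
    rw [e]
    exact ht
  · rintro ⟨h, p, q, r, hpq, hs⟩
    refine ⟨fun a b c hab => ?_, q, p, r, (hp.e12 p q r).1 hpq, by omega⟩
    have := h b a c ((hp.e12 b a c).2 hab)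
    omega
  · rintro ⟨h, p, q, r, hpq, hs⟩
    refine ⟨fun a b c hab => ?_, p, r, q, hpq, by omega⟩
    have := h a c b hab
    omega
  · rintro p q r ⟨hm, ht, hx⟩
    refine ⟨(hp.e12 p q r).1 hm, Two_swap ht, fun a b c hab hT => ?_⟩
    have := hx b a c ((hp.e12 b a c).2 hab) (Two_swap hT)
    omega
  · rintro p q r ⟨hm, ht, hx⟩
    refine ⟨hm, Two_swap' ht, fun a b c hab hT => ?_⟩
    have := hx a c b hab (Two_swap' hT)
    omega

end Pool.Agent.Helper4.W4
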