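import Pool.Agent.Helper21.W4.St4

/-!
# Project W4, module D1: numerical data, mode 1
-/

set_option autoImplicit false

namespace Pool.Agent.Helper4.W4

open Pool.Agent.Helper21.W4 Finset

theorem nf_cases (A W : ℕ) (hA : 1 ≤ A) : nf A W = 0 ∨ (nf A W = 1 ∧ 1 ≤ W) := by
  unfold nf
  split_ifs with h
  · exact Or.inl rfl
  · exact Or.inr ⟨rfl, by omega⟩

theorem nf_mul (A W : ℕ) (hA : 1 ≤ A) :
    0 ≤ nf A W ∧ nf A W ≤ 1 ∧ 3 * nf A W ≤ nf A W * ((W : ℤ) + 2) := by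
  rcases nf_cases A W hA with h | ⟨h, hW⟩
  · rw [h]; norm_num
  · rw [h]
    have : (1 : ℤ) ≤ W := by exact_mod_cast hW
    omega

/-- the general end of the proofs for the numerical data -/
theorem fin_aux (hnf : StNnf) (hst : StNstar) (hzv : StNzv) (x : Dat) (s : ℕ) (hB : Base x)
    (hY : Yo x s)
    (hG : Good (3 - (((W1 x : ℤ) + W2 x + W3 x) - s) + X0 x)
      ((((W1 x : ℤ) + W2 x + W3 x) - s) + 1 + x.a12 + x.a13 + x.a23 + x.bk))
    (h2 : 2 ≤ (((W1 x : ℤ) + W2 x + W3 x) - s) + 1 + x.a12 + x.a13 + x.a23 + x.bk) : TgtN x := by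
  obtain ⟨hz, hv⟩ := hzv x s hB hY
  obtain ⟨a1, a2, a3⟩ := nf_mul x.A1 (W1 x) hB.A1
  obtain ⟨b1, b2, b3⟩ := nf_mul x.A2 (W2 x) hB.A2
  obtain ⟨c1, c2, c3⟩ := nf_mul x.A3 (W3 x) hB.A3
  refine hst x hB (hnf _ _ _ _ (nf x.A1 (W1 x) + nf x.A2 (W2 x) + nf x.A3 (W3 x)) hG h2 ?_ ?_ ?_ ?_)
  · linarith
  · linarith
  · linarith
  · linarith

/-- the theorem StD1 -/
theorem hD1 : StD1 := by
  intro _ hnf hst hzv hN1 x s hB hY u1 u2 u3 hbk hL he12 he13 hs
  obtain ⟨p1, p2, p3, p4⟩ := hB.e12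
  obtain ⟨q1, q2, q3, q4⟩ := hB.e13
  obtain ⟨r1, r2, r3, r4⟩ := hB.e23
  obtain ⟨k1, k2, k3, k4⟩ := hB.k12
  obtain ⟨l1, l2, l3, l4⟩ := hB.k13
  obtain ⟨m1, m2, m3, m4⟩ := hB.k23
  have hx12 := hB.x12
  have hx13 := hB.x13
  have hx23 := hB.x23
  have hw12 : x.w12 = 0 := by
    by_contra h
    have := p3 (by omega)
    omega
  have hw21 : x.w21 = 0 := by
    by_contra h
    have := p4 (by omega)
    omega
  have hb13 := hB.b13
  have hb23 := hB.b23
  have hW1 : W1 x = x.w13 := by unfold W1; omega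
  have hW2 : W2 x = x.w23 := by unfold W2; omega
  have hW3 : x.w31 ≤ W3 x := by unfold W3; omega
  have hX : X0 x ≤ 3 * (x.e13 : ℤ) + 3 * x.e23 := by
    unfold X0
    omega
  have hg : (x.e13 : ℤ) + x.e23 - 1 ≤ ((W1 x : ℤ) + W2 x + W3 x) - s := by omega
  have ha13 : 1 ≤ x.a13 := by
    have : 1 * 1 ≤ x.e13 * x.e13 := Nat.mul_le_mul he13 he13
    omega
  apply fin_aux hnf hst hzv x s hB hY
  · refine hN1 x.e13 x.e23 _ _ x.a13 x.a23 (by exact_mod_cast he13) (by positivity)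
      (by exact_mod_cast hb13) (by exact_mod_cast hb23) (by linarith) ?_
    have : (0 : ℤ) ≤ x.a12 := by positivity
    have : (0 : ℤ) ≤ x.bk := by positivity
    linarith
  · omega

/-- the theorem StD1a -/
theorem hD1a : StD1a := by
  intro x hB u1 u2 u3 hbk hL he12 he13 he23 hκ
  obtain ⟨p1, p2, p3, p4⟩ := hB.e12
  obtain ⟨q1, q2, q3, q4⟩ := hB.e13
  obtain ⟨r1, r2, r3, r4⟩ := hB.e23
  obtain ⟨k1, k2, k3, k4⟩ := hB.k12
  obtain ⟨l1, l2, l3, l4⟩ := hB.k13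
  obtain ⟨m1, m2, m3, m4⟩ := hB.k23
  have hx12 := hB.x12
  have hx13 := hB.x13
  have hx23 := hB.x23
  have h1 : x.w12 = 0 := by
    by_contra h
    have := p3 (by omega)
    omega
  have h2 : x.w21 = 0 := by
    by_contra h
    have := p4 (by omega)
    omega
  have h3 : x.w13 = 0 := by
    by_contra h
    have := q3 (by omega)
    omega
  have h4 : x.w31 = 0 := by
    by_contra h
    have := q4 (by omega)
    omega
  have h5 : x.w23 = 0 := by
    by_contra h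
    have := r3 (by omega)
    omega
  have h6 : x.w32 = 0 := by
    by_contra h
    have := r4 (by omega)
    omega
  have A1 := hB.A1
  have A2 := hB.A2
  have A3 := hB.A3
  have hm := hB.hm
  have hE := hB.hE
  have hX : X0 x ≤ 0 := by
    unfold X0
    omega
  have f1 : fl x.A1 (W1 x) = 2 := by
    unfold fl W1
    rw [h1, h3]
    simp only [max_self]
    rw [if_pos (by omega)]
  have f2 : fl x.A2 (W2 x) = 2 := by
    unfold fl W2
    rw [h2, h5]
    simp only [max_self]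
    rw [if_pos (by omega)]
  have f3 : fl x.A3 (W3 x) = 2 := by
    unfold fl W3
    rw [h4, h6]
    simp only [max_self]
    rw [if_pos (by omega)]
  rw [f1, f2, f3] at hE
  unfold TgtN
  have g1 : (x.m : ℤ) - x.N ≤ 7 - ((x.A1 : ℤ) + x.A2 + x.A3) := by linarith
  have g2 : (x.κ : ℤ) ≤ (x.A1 : ℤ) + x.A2 + x.A3 + 1 := by omega
  have g3 : (x.A1 : ℤ) + x.A2 + x.A3 + 1 ≤ x.m := by omega
  have g4 : 2 * ((x.m : ℤ) - x.N) + 1 ≤ 9 := by omega
  have g5 : (0 : ℤ) ≤ x.κ := by positivity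
  calc (x.κ : ℤ) * (2 * ((x.m : ℤ) - x.N) + 1) ≤ x.κ * 9 := mul_le_mul_of_nonneg_left g4 g5
    _ ≤ 9 * x.m := by linarith

end Pool.Agent.Helper4.W4
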